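import Pool.Agent.H.MP_53e59f_lc.SM.Alg

/-!
# The algorithm with a certificate

The lists are cut at `C + 1` elements; the answer is certified if all lists have at most `C` elements.
-/

namespace Pool.Agent.SP

open Pool.Agent.SF
open Pool.Agent.H.MP_5be563_lc.PT

/-- The state after `j` steps. -/
def it (s : ℕ) (tab : List (List ℕ)) (st : ℕ) (acc : List Bool) (u v : List ℕ) (C j : ℕ) : Stt :=
  (one s tab acc u v C)^[j] (0, [(st, ini u)], false, false)

/-- All lists have at most `C` elements. -/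
def small (s : ℕ) (tab : List (List ℕ)) (st : ℕ) (acc : List Bool) (u v : List ℕ) (C : ℕ) : Bool :=
  (List.range (u.length + v.length + tab.length + 2)).all fun j =>
    decide ((it s tab st acc u v (C + 1) j).2.1.length ≤ C)

/-- The answer. -/
def dec (c : ℕ) (d : Dat) : Bool × Bool :=
  alg d.1 d.2.1 d.2.2.1 d.2.2.2.1 d.2.2.2.2.1 d.2.2.2.2.2 (SM.cap c d + 1)

/-- The certificate. -/
def cert (c : ℕ) (d : Dat) : Bool :=
  small d.1 d.2.1 d.2.2.1 d.2.2.2.1 d.2.2.2.2.1 d.2.2.2.2.2 (SM.cap c d)

end Pool.Agent.SP
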