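import Pool.Agent.H.MP_53e59f_lc.SH.Itr
import Pool.Agent.H.MP_53e59f_lc.SP.Alg

/-!
# Certified runs are not cut
-/

namespace Pool.Agent.SP

open Pool.Agent.SF

variable {s : ℕ} {tab : List (List ℕ)} {st : ℕ} {acc : List Bool} {u v : List ℕ} {m B C : ℕ}

private theorem Good_ev (w : List ℕ) (a : ℕ) : ev tab st (w ++ [a]) = look tab (ev tab st w) a := by
  unfold ev
  rw [List.foldl_append]
  rfl

/-- The next level before the cut. -/
theorem Good_dd {k : ℕ} {L : List (ℕ × List Bool)} (h : Good s tab st u v k L) :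
    Good s tab st u v (k + 1)
      (dd (L.flatMap fun e => (List.range s).map fun a => (look tab e.1 a, stp u v k e.2 a))) := by
  refine ⟨nodup_dd _, fun e => ?_⟩
  rw [mem_dd, List.mem_flatMap]
  constructor
  · rintro ⟨e', he', h2⟩
    obtain ⟨a, ha, rfl⟩ := List.mem_map.1 h2
    obtain ⟨w, hw, hws, rfl⟩ := (h.mem e').1 he'
    refine ⟨w ++ [a], by rw [List.length_append, hw]; rfl, fun b hb => ?_, ?_⟩
    · rcases List.mem_append.1 hb with hb | hb
      · exact hws b hb
      · rw [List.mem_singleton.1 hb]
        exact List.mem_range.1 ha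
    · rw [Good_ev, RB_snoc, hw]
  · rintro ⟨w', hw', hws', rfl⟩
    rcases List.eq_nil_or_concat w' with rfl | ⟨w, a, rfl⟩
    · exact absurd hw' (by simp)
    · rw [List.concat_eq_append] at hw' hws' ⊢
      have hw : w.length = k := by
        rw [List.length_append] at hw'
        simpa using hw'
      refine ⟨(ev tab st w, RB u v w), (h.mem _).2 ⟨w, hw, fun b hb => hws' b ?_, rfl⟩,
        List.mem_map.2 ⟨a, List.mem_range.2 (hws' a ?_), ?_⟩⟩
      · exact List.mem_append_left _ hb
      · exact List.mem_append_right _ (List.mem_singleton.2 rfl)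
      · rw [Good_ev, RB_snoc, hw]

theorem good_nxt {k : ℕ} {L : List (ℕ × List Bool)} (h : Good s tab st u v k L)
    (hle : (nxt s tab u v (C + 1) k L).length ≤ C) :
    Good s tab st u v (k + 1) (nxt s tab u v (C + 1) k L) := by
  have h1 := Good_dd h
  have h2 : (dd (L.flatMap fun e => (List.range s).map fun a =>
      (look tab e.1 a, stp u v k e.2 a))).length ≤ C + 1 := by
    unfold nxt at hle
    rw [List.length_take] at hle
    omega
  have h3 : nxt s tab u v (C + 1) k L =
      dd (L.flatMap fun e => (List.range s).map fun a => (look tab e.1 a, stp u v k e.2 a)) :=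
    List.take_of_length_le h2
  rw [h3]
  exact h1

theorem it_succ (j : ℕ) : it s tab st acc u v C (j + 1) =
    one s tab acc u v C (it s tab st acc u v C j) := by
  unfold it
  rw [Function.iterate_succ_apply']

theorem good_it (h : small s tab st acc u v C = true) (j : ℕ)
    (hj : j < u.length + v.length + tab.length + 2) :
    (it s tab st acc u v (C + 1) j).1 = j ∧
      Good s tab st u v j (it s tab st acc u v (C + 1) j).2.1 := by
  induction j with
  | zero => exact ⟨rfl, good_zero⟩
  | succ j ih =>
    obtain ⟨h1, h2⟩ := ih (by omega)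
    unfold small at h
    rw [List.all_eq_true] at h
    have h3 := of_decide_eq_true (h (j + 1) (List.mem_range.2 hj))
    rw [it_succ] at h3 ⊢
    have h4 : (one s tab acc u v (C + 1) (it s tab st acc u v (C + 1) j)).2.1 =
        nxt s tab u v (C + 1) j (it s tab st acc u v (C + 1) j).2.1 := by
      show nxt s tab u v (C + 1) (it s tab st acc u v (C + 1) j).1
        (it s tab st acc u v (C + 1) j).2.1 = _
      rw [h1]
    refine ⟨?_, ?_⟩
    · show (it s tab st acc u v (C + 1) j).1 + 1 = j + 1
      rw [h1]
    · rw [h4] at h3 ⊢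
      exact good_nxt h2 h3

theorem alg_iff (h : small s tab st acc u v C = true) :
    ((alg s tab st acc u v (C + 1)).1 = true ↔
      ∃ w : List ℕ, w.length ≤ u.length + v.length + tab.length ∧ (∀ a ∈ w, a < s) ∧
        acc.getD (ev tab st w) false = true ∧ ¬ Sh u v w) ∧
    ((alg s tab st acc u v (C + 1)).2 = true ↔
      ∃ w : List ℕ, w.length ≤ u.length + v.length + tab.length ∧ (∀ a ∈ w, a < s) ∧
        acc.getD (ev tab st w) false = false ∧ Sh u v w) := by
  have hg : ∀ k, k < u.length + v.length + tab.length + 1 →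
      ((one s tab acc u v (C + 1))^[k] (0, [(st, ini u)], false, false)).1 = k ∧
        Good s tab st u v k
          ((one s tab acc u v (C + 1))^[k] (0, [(st, ini u)], false, false)).2.1 :=
    fun k hk => good_it h k (by omega)
  have hf := Itr_flags (s := s) (tab := tab) (st := st) (acc := acc) (u := u) (v := v)
    (C := C + 1) (u.length + v.length + tab.length + 1)
  refine ⟨?_, ?_⟩
  · show ((one s tab acc u v (C + 1))^[u.length + v.length + tab.length + 1]
      (0, [(st, ini u)], false, false)).2.2.1 = true ↔ _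
    rw [hf.1]
    constructor
    · rintro ⟨k, hk, h⟩
      rw [(hg k hk).1, Itr_bad1 (hg k hk).2] at h
      obtain ⟨w, h1, h2⟩ := h
      exact ⟨w, by omega, h2⟩
    · rintro ⟨w, h1, h2⟩
      refine ⟨w.length, by omega, ?_⟩
      rw [(hg w.length (by omega)).1, Itr_bad1 (hg w.length (by omega)).2]
      exact ⟨w, rfl, h2⟩
  · show ((one s tab acc u v (C + 1))^[u.length + v.length + tab.length + 1]
      (0, [(st, ini u)], false, false)).2.2.2 = true ↔ _
    rw [hf.2]
    constructor
    · rintro ⟨k, hk, h⟩
      rw [(hg k hk).1, Itr_bad2 (hg k hk).2] at h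
      obtain ⟨w, h1, h2⟩ := h
      exact ⟨w, by omega, h2⟩
    · rintro ⟨w, h1, h2⟩
      refine ⟨w.length, by omega, ?_⟩
      rw [(hg w.length (by omega)).1, Itr_bad2 (hg w.length (by omega)).2]
      exact ⟨w, rfl, h2⟩

/-- If there are few sets of tokens then the run is certified. -/
theorem small_of (hr : ∀ k, {S : Set ℕ | ∃ w : List ℕ, w.length = k ∧ (∀ a ∈ w, a < s) ∧ S = Rs u v w}.Finite ∧
      {S : Set ℕ | ∃ w : List ℕ, w.length = k ∧ (∀ a ∈ w, a < s) ∧ S = Rs u v w}.ncard ≤ B)
    (hm : ∀ w : List ℕ, (∀ a ∈ w, a < s) → ev tab st w < m) (hC : m * B ≤ C) :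
    small s tab st acc u v C = true := by
  unfold small
  rw [List.all_eq_true]
  intro j _
  have h1 := (SH.good_iter (acc := acc) hr hm (hC.trans (Nat.le_succ C)) j).2
  exact decide_eq_true ((SH.good_len hr hm h1).trans hC)

end Pool.Agent.SP
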