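import Pool.Agent.H.MP_53e59f_lc.SM.PT
import Pool.Agent.H.MP_53e59f_lc.SP.Alg

/-!
# Polynomial time
-/

namespace Pool.Agent.SP

open Pool.Agent.SF
open Pool.Agent.H.MP_5be563_lc.PT

variable {α : Type} [Enc α]

theorem poly_it {s : α → ℕ} {tab : α → List (List ℕ)} {st : α → ℕ} {acc : α → List Bool}
    {u v : α → List ℕ} {C n : α → ℕ} (hs : Poly s) (htab : Poly tab) (hst : Poly st)
    (hacc : Poly acc) (hu : Poly u) (hv : Poly v) (hC : Poly C) (hn : Poly n) :
    Poly (fun a => it (s a) (tab a) (st a) (acc a) (u a) (v a) (C a) (n a)) := by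
  have hf : Poly (fun p : α × Stt =>
      one (s p.1) (tab p.1) (acc p.1) (u p.1) (v p.1) (C p.1) p.2) :=
    poly_one (hs.comp Poly.fst) (htab.comp Poly.fst) (hacc.comp Poly.fst) (hu.comp Poly.fst)
      (hv.comp Poly.fst) (hC.comp Poly.fst) Poly.snd
  have hini := PTime_ini hu
  have hs0 : Poly (fun a => ((0, [(st a, ini (u a))], false, false) : Stt)) := by
    fun_prop
  have hul : Poly (fun a => (u a).length + 1) := by
    fun_prop
  have hC1 : Poly (fun a => C a + 1) := by
    fun_prop
  have hB : PBdd (fun a => 2 * (n a) +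
      (C a + 1) * (sz (tab a) + sz (st a) + 4 * ((u a).length + 1) + 10) + 20) :=
    (((PBdd.const 2).mul (PTime_nat hn)).add ((PTime_nat hC1).mul
      (((htab.sz_le.add hst.sz_le).add ((PBdd.const 4).mul (PTime_nat hul))).add
        (PBdd.const 10)))).add (PBdd.const 20)
  exact Poly.iterate (f := fun a t => one (s a) (tab a) (acc a) (u a) (v a) (C a) t)
    (s := fun a => ((0, [(st a, ini (u a))], false, false) : Stt))
    (n := n) hf hs0 hn hB (by
      intro a k hk
      have h1 := sz_iter (s a) (tab a) (st a) (acc a) (u a) (v a) (C a) k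
      have h2 : 2 * k + (C a + 1) * (sz (tab a) + sz (st a) + 4 * ((u a).length + 1) + 10) + 20 ≤
          2 * (n a) +
          (C a + 1) * (sz (tab a) + sz (st a) + 4 * ((u a).length + 1) + 10) + 20 := by
        omega
      exact h1.trans h2)

theorem poly_small {s : α → ℕ} {tab : α → List (List ℕ)} {st : α → ℕ} {acc : α → List Bool}
    {u v : α → List ℕ} {C : α → ℕ} (hs : Poly s) (htab : Poly tab) (hst : Poly st)
    (hacc : Poly acc) (hu : Poly u) (hv : Poly v) (hC : Poly C) :
    Poly (fun a => small (s a) (tab a) (st a) (acc a) (u a) (v a) (C a)) := by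
  have hC1 : Poly (fun p : α × ℕ => C p.1 + 1) := Poly.add (hC.comp Poly.fst) (by fun_prop)
  have h1 : Poly (fun p : α × ℕ =>
      it (s p.1) (tab p.1) (st p.1) (acc p.1) (u p.1) (v p.1) (C p.1 + 1) p.2) :=
    poly_it (hs.comp Poly.fst) (htab.comp Poly.fst) (hst.comp Poly.fst) (hacc.comp Poly.fst)
      (hu.comp Poly.fst) (hv.comp Poly.fst) hC1 Poly.snd
  have h2 : Poly (fun p : α × ℕ =>
      (it (s p.1) (tab p.1) (st p.1) (acc p.1) (u p.1) (v p.1) (C p.1 + 1) p.2).2.1.length) :=
    Poly.length (Poly.fst.comp (Poly.snd.comp h1))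
  have h3 : Poly (fun p : α × ℕ => C p.1) := hC.comp Poly.fst
  have h4 : Poly (fun p : α × ℕ => decide
      ((it (s p.1) (tab p.1) (st p.1) (acc p.1) (u p.1) (v p.1) (C p.1 + 1) p.2).2.1.length ≤
        C p.1)) := by
    fun_prop
  have h5 : Poly (fun a => (u a).length + (v a).length + (tab a).length + 2) := by
    fun_prop
  have h6 : Poly (fun a => List.range ((u a).length + (v a).length + (tab a).length + 2)) := by
    fun_prop
  exact Poly.all h4 h6

theorem poly_dec (c : ℕ) : Poly (SP.dec c) := by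
  have h1 : Poly (fun d : Dat => d.1) := by fun_prop
  have h2 : Poly (fun d : Dat => d.2.1) := by fun_prop
  have h3 : Poly (fun d : Dat => d.2.2.1) := by fun_prop
  have h4 : Poly (fun d : Dat => d.2.2.2.1) := by fun_prop
  have h5 : Poly (fun d : Dat => d.2.2.2.2.1) := by fun_prop
  have h6 : Poly (fun d : Dat => d.2.2.2.2.2) := by fun_prop
  exact poly_alg h1 h2 h3 h4 h5 h6 (Poly.add (SM.poly_cap c) (by fun_prop))

theorem poly_cert (c : ℕ) : Poly (SP.cert c) := by
  have h1 : Poly (fun d : Dat => d.1) := by fun_prop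
  have h2 : Poly (fun d : Dat => d.2.1) := by fun_prop
  have h3 : Poly (fun d : Dat => d.2.2.1) := by fun_prop
  have h4 : Poly (fun d : Dat => d.2.2.2.1) := by fun_prop
  have h5 : Poly (fun d : Dat => d.2.2.2.2.1) := by fun_prop
  have h6 : Poly (fun d : Dat => d.2.2.2.2.2) := by fun_prop
  exact poly_small h1 h2 h3 h4 h5 h6 (SM.poly_cap c)

end Pool.Agent.SP
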